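import Pool.Agent.Helper71.SD.Goals

/-!
# The facets of a cube with directions `Option E`
-/

set_option autoImplicit false

namespace Pool.Agent.Helper71.SD.FAC

open Pool.Agent.Helper71.AHtpy SimpleGraph

theorem map_symmDiff' {α β : Type} [DecidableEq α] [DecidableEq β] (κ : α ↪ β)
    (s t : Finset α) : (symmDiff s t).map κ = symmDiff (s.map κ) (t.map κ) := by
  ext o
  simp only [Finset.mem_map, Finset.mem_symmDiff]
  constructor
  · rintro ⟨k, hk | hk, rfl⟩
    · left
      refine ⟨⟨k, hk.1, rfl⟩, ?_⟩
      rintro ⟨k', h1, h2⟩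
      rw [κ.injective h2] at h1
      exact hk.2 h1
    · right
      refine ⟨⟨k, hk.1, rfl⟩, ?_⟩
      rintro ⟨k', h1, h2⟩
      rw [κ.injective h2] at h1
      exact hk.2 h1
  · rintro (⟨⟨k, h1, rfl⟩, h2⟩ | ⟨⟨k, h1, rfl⟩, h2⟩)
    · exact ⟨k, Or.inl ⟨h1, fun h3 => h2 ⟨k, h3, rfl⟩⟩, rfl⟩
    · exact ⟨k, Or.inr ⟨h1, fun h3 => h2 ⟨k, h3, rfl⟩⟩, rfl⟩

/-- general facet lemma -/
theorem facet {V : Type} {G : SimpleGraph V} (A : Amb G)
    (τ : Finset (Option E) → Quotient (suspSetoid V 6)) (i : Option E) (e : Bool)
    (κ : E ↪ Option E) (hκ : ∀ o, o ≠ i ↔ ∃ k, κ k = o) (wi : Finset (Option E))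
    (hwi : decide (i ∈ wi) = e) :
    EssF A τ i e ↔ EssA A (fun U => τ (symmDiff wi (U.map κ))) := by
  have hi : ∀ T : Finset E, i ∉ T.map κ := by
    intro T h
    obtain ⟨k, -, hk⟩ := Finset.mem_map.1 h
    exact (hκ i).2 ⟨k, hk⟩ rfl
  constructor
  · rintro ⟨π, w, hπ, hw, hE⟩
    have h1 : ∀ k, ∃ k', κ k' = π k := fun k => (hκ (π k)).1 (hπ k)
    choose f hf using h1
    have hfinj : Function.Injective f := by
      intro a b hab
      apply π.injective
      rw [← hf a, ← hf b, hab]
    let π' : Equiv.Perm E := Equiv.ofBijective f (Finite.injective_iff_bijective.1 hfinj)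
    have hπ' : ∀ k, κ (π' k) = π k := hf
    let w' : Finset E := Finset.univ.filter (fun k => κ k ∈ symmDiff wi w)
    have hw' : w'.map κ = symmDiff wi w := by
      ext o
      rw [Finset.mem_map]
      constructor
      · rintro ⟨k, hk, rfl⟩
        exact (Finset.mem_filter.1 hk).2
      · intro ho
        have hoi : o ≠ i := by
          rintro rfl
          have h2 : (o ∈ wi) ↔ (o ∈ w) := by
            rw [← decide_eq_decide, hwi, hw]
          rw [Finset.mem_symmDiff] at ho
          tauto
        obtain ⟨k, hk⟩ := (hκ o).1 hoi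
        refine ⟨k, ?_, hk⟩
        rw [Finset.mem_filter]
        exact ⟨Finset.mem_univ _, by rw [hk]; exact ho⟩
    refine ⟨π', w', ?_⟩
    have h3 : (fun S => τ (symmDiff wi ((aff π'.toEmbedding w' S).map κ)))
        = fun S => τ (aff π w S) := by
      funext S
      congr 1
      unfold aff
      have h4 : S.map π = (S.map π'.toEmbedding).map κ := by
        ext o
        simp only [Finset.mem_map]
        constructor
        · rintro ⟨k, hk, rfl⟩
          exact ⟨π' k, ⟨k, hk, rfl⟩, hπ' k⟩
        · rintro ⟨_, ⟨k, hk, rfl⟩, rfl⟩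
          exact ⟨k, hk, (hπ' k).symm⟩
      rw [map_symmDiff', ← symmDiff_assoc, hw', ← h4, symmDiff_symmDiff_cancel_left]
    rw [h3]
    exact hE
  · rintro ⟨π', w', hE⟩
    refine ⟨π'.toEmbedding.trans κ, symmDiff wi (w'.map κ), ?_, ?_, ?_⟩
    · intro j
      exact (hκ _).2 ⟨π' j, rfl⟩
    · rw [← hwi, decide_eq_decide, Finset.mem_symmDiff]
      have := hi w'
      tauto
    · have h3 : (fun S => τ (symmDiff wi ((aff π'.toEmbedding w' S).map κ)))
          = fun S => τ (aff (π'.toEmbedding.trans κ) (symmDiff wi (w'.map κ)) S) := by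
        funext S
        congr 1
        unfold aff
        rw [map_symmDiff', ← symmDiff_assoc, Finset.map_map]
      rw [← h3]
      exact hE

/-- the directions of the facet `some i` -/
def kapf (i : E) (k : E) : Option E := if k = i then none else some k

theorem kapf_self (i : E) : kapf i i = none := if_pos rfl

theorem kapf_ne {i k : E} (h : k ≠ i) : kapf i k = some k := if_neg h

/-- the directions of the facet `some i` -/
def kap (i : E) : E ↪ Option E where
  toFun := kapf i
  inj' := by
    intro a b h
    by_cases ha : a = i <;> by_cases hb : b = i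
    · rw [ha, hb]
    · rw [ha, kapf_self, kapf_ne hb] at h
      exact absurd h (by simp)
    · rw [hb, kapf_self, kapf_ne ha] at h
      exact absurd h (by simp)
    · rw [kapf_ne ha, kapf_ne hb] at h
      exact Option.some_injective _ h

theorem kap_self (i : E) : kap i i = none := kapf_self i

theorem kap_ne {i k : E} (h : k ≠ i) : kap i k = some k := kapf_ne h

theorem kap_range (i : E) (o : Option E) : o ≠ some i ↔ ∃ k, kap i k = o := by
  constructor
  · intro h
    rcases o with _ | k
    · exact ⟨i, kap_self i⟩
    · have hk : k ≠ i := fun h' => h (by rw [h'])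
      exact ⟨k, kap_ne hk⟩
  · rintro ⟨k, rfl⟩ h
    by_cases hk : k = i
    · rw [hk, kap_self] at h
      exact absurd h (by simp)
    · rw [kap_ne hk] at h
      exact hk (Option.some_injective _ h)

theorem none_mem_kap (i : E) (U : Finset E) : none ∈ U.map (kap i) ↔ i ∈ U := by
  rw [Finset.mem_map]
  constructor
  · rintro ⟨k, hk, h⟩
    by_cases hki : k = i
    · rwa [← hki]
    · rw [kap_ne hki] at h
      exact absurd h (by simp)
  · intro h
    exact ⟨i, h, kap_self i⟩

theorem some_mem_kap (i k : E) (U : Finset E) : some k ∈ U.map (kap i) ↔ k ≠ i ∧ k ∈ U := by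
  rw [Finset.mem_map]
  constructor
  · rintro ⟨k', hk', h⟩
    by_cases hki : k' = i
    · rw [hki, kap_self] at h
      exact absurd h (by simp)
    · rw [kap_ne hki] at h
      have h2 : k' = k := Option.some_injective _ h
      rw [← h2]
      exact ⟨hki, hk'⟩
  · rintro ⟨h1, h2⟩
    exact ⟨k, h2, kap_ne h1⟩

theorem none_mem_some (U : Finset E) : none ∉ U.map Function.Embedding.some := by
  simp

theorem some_mem_some (k : E) (U : Finset E) :
    some k ∈ U.map Function.Embedding.some ↔ k ∈ U := by
  simp

/-- base point of the facet -/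
def wb (i : E) (e : Bool) : Finset (Option E) := if e then {some i, none} else ∅

theorem side_eq {Q : Type} (τ : Finset (Option E) → Q) (i : E) (e : Bool) (U : Finset E) :
    side (bot τ) (top τ) i e U = τ (symmDiff (wb i e) (U.map (kap i))) := by
  unfold side bot top
  have hn := none_mem_kap i U
  have hs := fun k => some_mem_kap i k U
  by_cases hU : i ∈ U
  · cases e
    · rw [if_neg (by simp [hU])]
      congr 1
      ext o
      rcases o with _ | k
      · rw [Finset.mem_symmDiff, hn]
        simp [wb, hU]
      · rw [Finset.mem_symmDiff, hs k, Finset.mem_insert, some_mem_some, mem_tog]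
        by_cases hk : k = i
        · simp [wb, hk, hU]
        · simp [wb, hk]
    · rw [if_pos (by simp [hU])]
      congr 1
      ext o
      rcases o with _ | k
      · rw [Finset.mem_symmDiff, hn]
        simp [wb, hU]
      · rw [Finset.mem_symmDiff, hs k, some_mem_some]
        by_cases hk : k = i
        · simp [wb, hk, hU]
        · simp [wb, hk]
  · cases e
    · rw [if_pos (by simp [hU])]
      congr 1
      ext o
      rcases o with _ | k
      · rw [Finset.mem_symmDiff, hn]
        simp [wb, hU]
      · rw [Finset.mem_symmDiff, hs k, some_mem_some]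
        by_cases hk : k = i
        · simp [wb, hk, hU]
        · simp [wb, hk]
    · rw [if_neg (by simp [hU])]
      congr 1
      ext o
      rcases o with _ | k
      · rw [Finset.mem_symmDiff, hn]
        simp [wb, hU]
      · rw [Finset.mem_symmDiff, hs k, Finset.mem_insert, some_mem_some, mem_tog]
        by_cases hk : k = i
        · simp [wb, hk, hU]
        · simp [wb, hk]

theorem fac : S_FAC := by
  intro V G A τ
  have hsome : ∀ o : Option E, o ≠ none ↔ ∃ k, Function.Embedding.some k = o := by
    intro o
    rcases o with _ | k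
    · simp
    · simp
  refine ⟨?_, ?_, ?_⟩
  · rw [facet A τ none false Function.Embedding.some hsome ∅ (by simp)]
    have h1 : (fun U : Finset E => τ (symmDiff ∅ (U.map Function.Embedding.some))) = bot τ := by
      funext U
      unfold bot
      congr 1
      ext o
      simp [Finset.mem_symmDiff]
    rw [h1]
  · rw [facet A τ none true Function.Embedding.some hsome {none} (by simp)]
    have h1 : (fun U : Finset E => τ (symmDiff {none} (U.map Function.Embedding.some)))
        = top τ := by
      funext U
      unfold top
      congr 1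
      ext o
      rcases o with _ | k
      · simp [Finset.mem_symmDiff]
      · simp [Finset.mem_symmDiff]
    rw [h1]
  · intro i e
    rw [facet A τ (some i) e (kap i) (kap_range i) (wb i e) (by cases e <;> simp [wb])]
    have h1 : (fun U : Finset E => τ (symmDiff (wb i e) (U.map (kap i))))
        = side (bot τ) (top τ) i e := by
      funext U
      exact (side_eq τ i e U).symm
    rw [h1]

end Pool.Agent.Helper71.SD.FAC
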