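import Pool.Agent.Helper71.SD.Goals
import Pool.Agent.Helper61.SD.FAC

/-!
# The number of essential facets is even
-/

set_option autoImplicit false

namespace Pool.Agent.Helper71.SD.PAR

open Pool.Agent.Helper71.AHtpy SimpleGraph

theorem card_aux {α : Type} [Fintype α] (P Q : α → Prop) [DecidablePred P] [DecidablePred Q]
    (Φ : α ≃ α) (h : ∀ p, P p ↔ Q (Φ p)) :
    (Finset.univ.filter P).card = (Finset.univ.filter Q).card := by
  apply Finset.card_bij (fun p _ => Φ p)
  · intro p hp
    rw [Finset.mem_filter] at hp ⊢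
    exact ⟨Finset.mem_univ _, (h p).1 hp.2⟩
  · intro p _ q _ hpq
    exact Φ.injective hpq
  · intro q hq
    rw [Finset.mem_filter] at hq
    refine ⟨Φ.symm q, ?_, Φ.apply_symm_apply q⟩
    rw [Finset.mem_filter]
    refine ⟨Finset.mem_univ _, ?_⟩
    rw [h, Φ.apply_symm_apply]
    exact hq.2

theorem count_aux {ι : Type} [Fintype ι] (P : Option ι × Bool → Prop) (Q : ι × Bool → Prop)
    [DecidablePred P] [DecidablePred Q] (h : ∀ k e, P (some k, e) ↔ Q (k, e)) :
    (Finset.univ.filter P).card
      = (if P (none, true) then 1 else 0) + (if P (none, false) then 1 else 0)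
        + (Finset.univ.filter Q).card := by
  rw [Finset.card_filter, Finset.card_filter, Fintype.sum_prod_type, Fintype.sum_prod_type,
    Fintype.sum_option, Fintype.sum_bool]
  congr 1
  apply Finset.sum_congr rfl
  intro k _
  apply Finset.sum_congr rfl
  intro e _
  exact if_congr (h k e) rfl rfl

/-- the bijection of the facets -/
def phi {α : Type} [DecidableEq α] (ρ : Equiv.Perm α) (w : Finset α) : α × Bool ≃ α × Bool where
  toFun p := (ρ p.1, xor p.2 (decide (ρ p.1 ∈ w)))
  invFun q := (ρ.symm q.1, xor q.2 (decide (q.1 ∈ w)))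
  left_inv p := by
    simp
  right_inv q := by
    simp

open Classical in
theorem par (hCNT : S_CNT) (hFAC : S_FAC) (hSYM : S_SYM) : S_PAR := by
  intro V G A τ hτ
  by_cases hne : ∃ p : Option E × Bool, EssF A τ p.1 p.2
  swap
  · have h0 : (Finset.univ.filter fun p : Option E × Bool => EssF A τ p.1 p.2) = ∅ := by
      rw [Finset.filter_eq_empty_iff]
      intro p _ hp
      exact hne ⟨p, hp⟩
    rw [h0]
    simp
  obtain ⟨⟨i₀, e₀⟩, π₀, w₀, hπ₀, hw₀, hE⟩ := hne
  simp only at hπ₀ hw₀
  -- the automorphism
  let f : Option E → Option E := fun o => match o with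
    | none => i₀
    | some k => π₀ k
  have hfinj : Function.Injective f := by
    intro a b h
    rcases a with _ | a <;> rcases b with _ | b
    · rfl
    · exact absurd h.symm (hπ₀ b)
    · exact absurd h (hπ₀ a)
    · have : π₀ a = π₀ b := h
      rw [π₀.injective this]
  let ρ : Equiv.Perm (Option E) := Equiv.ofBijective f (Finite.injective_iff_bijective.1 hfinj)
  have hρn : ρ none = i₀ := rfl
  have hρs : ∀ k, ρ (some k) = π₀ k := fun k => rfl
  let τ' : Finset (Option E) → Quotient (suspSetoid V 6) := fun W => τ (aff ρ.toEmbedding w₀ W)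
  have hτ' : IsGraphMap (cube (Option E)) (Susp G 6) τ' := by
    rintro S T ⟨a, rfl⟩
    apply hτ
    refine ⟨ρ a, ?_⟩
    unfold aff tog
    rw [FAC.map_symmDiff', ← symmDiff_assoc, Finset.map_singleton]
    rfl
  have hbot : bot τ' = fun S => τ (aff π₀ w₀ S) := by
    funext S
    unfold bot
    show τ (aff ρ.toEmbedding w₀ (S.map Function.Embedding.some)) = _
    unfold aff
    rw [Finset.map_map]
    congr 2
  have hEssB : EssB A (bot τ') := by
    rw [hbot]
    exact hE
  have hpair : Pair A (bot τ') (top τ') := by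
    refine ⟨?_, ?_, hEssB⟩
    · rintro S T ⟨a, rfl⟩
      unfold top
      apply hτ'
      refine ⟨some a, ?_⟩
      ext o
      rcases o with _ | k
      · simp [tog, Finset.mem_symmDiff]
      · rw [mem_tog]
        simp only [Finset.mem_insert, FAC.some_mem_some, mem_tog]
        simp
    · intro S
      apply hτ'.near
      right
      refine ⟨none, ?_⟩
      ext o
      rcases o with _ | k
      · rw [mem_tog]
        simp
      · rw [mem_tog]
        simp
  -- the bijection of the facets
  have hsym : ∀ p : Option E × Bool, EssF A τ' p.1 p.2 ↔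
      EssF A τ (ρ p.1) (xor p.2 (decide (ρ p.1 ∈ w₀))) := fun p =>
    hSYM V G A τ ρ w₀ p.1 p.2
  have hcard : (Finset.univ.filter fun p : Option E × Bool => EssF A τ' p.1 p.2).card
      = (Finset.univ.filter fun p : Option E × Bool => EssF A τ p.1 p.2).card :=
    card_aux _ _ (phi ρ w₀) hsym
  rw [← hcard]
  -- counting
  have hfac := hFAC V G A τ'
  have hcnt := hCNT V G A (bot τ') (top τ') hpair
  have hEssA : EssA A (bot τ') := by
    refine ⟨Equiv.refl E, ∅, ?_⟩
    have h1 : (fun S => bot τ' (aff (Equiv.refl E).toEmbedding ∅ S)) = bot τ' := by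
      funext S
      have h2 : aff (Equiv.refl E).toEmbedding ∅ S = S := by
        unfold aff
        ext i
        rw [Finset.mem_symmDiff, Finset.mem_map]
        simp
      rw [h2]
    rw [h1]
    exact hEssB
  have h1 : (Finset.univ.filter fun p : Option E × Bool => EssF A τ' p.1 p.2).card
      = 1 + (if EssA A (top τ') then 1 else 0) +
        (Finset.univ.filter fun p : E × Bool =>
          EssA A (side (bot τ') (top τ') p.1 p.2)).card := by
    have h2 := count_aux (fun p : Option E × Bool => EssF A τ' p.1 p.2)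
      (fun p : E × Bool => EssA A (side (bot τ') (top τ') p.1 p.2)) (fun k e => hfac.2.2 k e)
    rw [h2]
    have h3 : (if EssF A τ' none true then 1 else 0) = (if EssA A (top τ') then 1 else 0) :=
      if_congr hfac.2.1 rfl rfl
    have h4 : (if EssF A τ' none false then 1 else 0) = 1 := if_pos (hfac.1.2 hEssA)
    rw [h3, h4, add_comm (if EssA A (top τ') then 1 else 0) 1]
  rw [h1]
  exact hcnt

end Pool.Agent.Helper71.SD.PAR
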